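import Mathlib

/-!
# Binary-marginal MMS-feasible valuations: basic tools
-/

namespace Pool.Agent.Helper81.PMMS

open Finset

set_option linter.unusedSectionVars false

variable {M : Type} [DecidableEq M]

/-- Natural-number valued normalised binary-marginal valuation that is MMS-feasible. -/
structure BM (v : Finset M → ℕ) : Prop where
  empty : v ∅ = 0
  le_insert : ∀ S g, v S ≤ v (insert g S)
  insert_le : ∀ S g, v (insert g S) ≤ v S + 1
  mms : ∀ A B C D : Finset M, Disjoint A B → Disjoint C D → A ∪ B = C ∪ D →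
    ∀ t, t ≤ v A → t ≤ v B → t ≤ v C ∨ t ≤ v D

/-- `S` splits into two parts of value at least `t`. -/
def Spl (v : Finset M → ℕ) (t : ℕ) (S : Finset M) : Prop :=
  ∃ A B, Disjoint A B ∧ A ∪ B = S ∧ t ≤ v A ∧ t ≤ v B

/-- The holder of `X` has no objection to `Y`. -/
def NE (v : Finset M → ℕ) (X Y : Finset M) : Prop := ¬ Spl v (v X + 1) (X ∪ Y)

namespace BM

variable {v : Finset M → ℕ}

theorem mono (h : BM v) {S T : Finset M} (hST : S ⊆ T) : v S ≤ v T := by
  obtain ⟨U, rfl⟩ : ∃ U, T = U ∪ S := ⟨T, by rw [union_eq_left.2 hST]⟩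
  clear hST
  induction U using Finset.induction with
  | empty => simp
  | insert a U _ ih =>
    rw [insert_union]
    exact ih.trans (h.le_insert _ _)

theorem le_erase (h : BM v) (S : Finset M) (g : M) : v S ≤ v (S.erase g) + 1 := by
  by_cases hg : g ∈ S
  · have := h.insert_le (S.erase g) g
    rwa [insert_erase hg] at this
  · rw [erase_eq_of_notMem hg]
    omega

theorem erase_le (h : BM v) (S : Finset M) (g : M) : v (S.erase g) ≤ v S :=
  h.mono (erase_subset _ _)

theorem le_card (h : BM v) (S : Finset M) : v S ≤ S.card := by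
  induction S using Finset.induction with
  | empty => simp [h.empty]
  | insert a S ha ih =>
    rw [card_insert_of_notMem ha]
    exact (h.insert_le S a).trans (by omega)

theorem nonempty (h : BM v) {S : Finset M} (hS : 1 ≤ v S) : S.Nonempty := by
  rw [nonempty_iff_ne_empty]
  rintro rfl
  rw [h.empty] at hS
  omega

theorem spl_cases (h : BM v) {t : ℕ} {S C D : Finset M} (hS : Spl v t S) (hCD : Disjoint C D)
    (hU : C ∪ D = S) : t ≤ v C ∨ t ≤ v D := by
  obtain ⟨A, B, hAB, hU', hA, hB⟩ := hS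
  exact h.mms A B C D hAB hCD (hU'.trans hU.symm) t hA hB

theorem spl_mono (h : BM v) {t : ℕ} {S T : Finset M} (hST : S ⊆ T) (hS : Spl v t S) :
    Spl v t T := by
  obtain ⟨A, B, hAB, rfl, hA, hB⟩ := hS
  refine ⟨T \ B, B, sdiff_disjoint, ?_, hA.trans (h.mono ?_), hB⟩
  · rw [sdiff_union_self_eq_union, union_eq_left]
    exact subset_union_right.trans hST
  · intro x hx
    rw [mem_sdiff]
    exact ⟨hST (mem_union_left _ hx), fun hx' => disjoint_left.1 hAB hx hx'⟩

theorem spl_erase (h : BM v) {t : ℕ} {S : Finset M} (g : M) (hS : Spl v (t + 1) S) :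
    Spl v t (S.erase g) := by
  obtain ⟨A, B, hAB, rfl, hA, hB⟩ := hS
  refine ⟨A.erase g, B.erase g, ?_, ?_, ?_, ?_⟩
  · exact (hAB.mono_left (erase_subset _ _)).mono_right (erase_subset _ _)
  · rw [erase_union_distrib]
  · have := h.le_erase A g
    omega
  · have := h.le_erase B g
    omega

theorem ne_of_le (h : BM v) {X Y : Finset M} (hXY : Disjoint X Y) (hle : v Y ≤ v X) :
    NE v X Y := by
  intro hs
  rcases h.spl_cases hs hXY rfl with h1 | h1 <;> omega

end BM

theorem Spl.anti {v : Finset M → ℕ} {s t : ℕ} (hst : s ≤ t) {S : Finset M} (hS : Spl v t S) :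
    Spl v s S := by
  obtain ⟨A, B, hAB, hU, hA, hB⟩ := hS
  exact ⟨A, B, hAB, hU, hst.trans hA, hst.trans hB⟩

theorem Spl.mk' {v : Finset M → ℕ} {t : ℕ} {A B S : Finset M} (hAB : Disjoint A B)
    (hU : A ∪ B = S) (hA : t ≤ v A) (hB : t ≤ v B) : Spl v t S := ⟨A, B, hAB, hU, hA, hB⟩

variable [Fintype M]

/-- Ordered partitions of the item set into three bundles. -/
structure Part (X Y Z : Finset M) : Prop where
  xy : Disjoint X Y
  xz : Disjoint X Z
  yz : Disjoint Y Z
  cov : ∀ x, x ∈ X ∨ x ∈ Y ∨ x ∈ Z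

namespace Part

variable {X Y Z : Finset M}

theorem s12 (h : Part X Y Z) : Part Y X Z :=
  ⟨h.xy.symm, h.yz, h.xz, fun x => by rcases h.cov x with h | h | h <;> simp [h]⟩

theorem s23 (h : Part X Y Z) : Part X Z Y :=
  ⟨h.xz, h.xy, h.yz.symm, fun x => by rcases h.cov x with h | h | h <;> simp [h]⟩

theorem s13 (h : Part X Y Z) : Part Z Y X :=
  ⟨h.yz.symm, h.xz.symm, h.xy.symm, fun x => by rcases h.cov x with h | h | h <;> simp [h]⟩

theorem rot (h : Part X Y Z) : Part Y Z X := h.s12.s23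

theorem rot' (h : Part X Y Z) : Part Z X Y := h.s23.s12

/-- Move an item from the first to the second bundle. -/
theorem move12 (h : Part X Y Z) {g : M} (hg : g ∈ X) : Part (X.erase g) (insert g Y) Z := by
  have hY : g ∉ Y := fun h' => disjoint_left.1 h.xy hg h'
  have hZ : g ∉ Z := fun h' => disjoint_left.1 h.xz hg h'
  refine ⟨?_, ?_, ?_, ?_⟩
  · rw [disjoint_insert_right]
    exact ⟨notMem_erase _ _, h.xy.mono_left (erase_subset _ _)⟩
  · exact h.xz.mono_left (erase_subset _ _)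
  · rw [disjoint_insert_left]
    exact ⟨hZ, h.yz⟩
  · intro x
    by_cases hx : x = g
    · subst hx
      simp
    · rcases h.cov x with h' | h' | h' <;> simp [h', hx]

/-- Move an item from the first to the third bundle. -/
theorem move13 (h : Part X Y Z) {g : M} (hg : g ∈ X) : Part (X.erase g) Y (insert g Z) :=
  (h.s23.move12 hg).s23

/-- Move an item from the third to the first bundle. -/
theorem move31 (h : Part X Y Z) {g : M} (hg : g ∈ Z) : Part (insert g X) Y (Z.erase g) :=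
  (h.s13.move13 hg).s13

/-- Move an item from the third to the second bundle. -/
theorem move32 (h : Part X Y Z) {g : M} (hg : g ∈ Z) : Part X (insert g Y) (Z.erase g) :=
  (h.s13.move12 hg).s13

/-- Move an item from the second to the third bundle. -/
theorem move23 (h : Part X Y Z) {g : M} (hg : g ∈ Y) : Part X (Y.erase g) (insert g Z) :=
  (h.s12.move13 hg).s12

/-- Move an item from the second to the first bundle. -/
theorem move21 (h : Part X Y Z) {g : M} (hg : g ∈ Y) : Part (insert g X) (Y.erase g) Z :=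
  (h.s12.move12 hg).s12

/-- Re-split the union of the first two bundles. -/
theorem resplit (h : Part X Y Z) {A B : Finset M} (hAB : Disjoint A B) (hU : A ∪ B = X ∪ Y) :
    Part A B Z := by
  have hA : A ⊆ X ∪ Y := hU ▸ subset_union_left
  have hB : B ⊆ X ∪ Y := hU ▸ subset_union_right
  have hXYZ : Disjoint (X ∪ Y) Z := by
    rw [disjoint_union_left]
    exact ⟨h.xz, h.yz⟩
  refine ⟨hAB, hXYZ.mono_left hA, hXYZ.mono_left hB, fun x => ?_⟩
  have hx : x ∈ A ∪ B ∨ x ∈ Z := by
    rw [hU, mem_union]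
    rcases h.cov x with h' | h' | h' <;> simp [h']
  rcases hx with hx | hx
  · rcases mem_union.1 hx with hx | hx <;> simp [hx]
  · simp [hx]

theorem resplit23 (h : Part X Y Z) {A B : Finset M} (hAB : Disjoint A B) (hU : A ∪ B = Y ∪ Z) :
    Part X A B := (h.rot.resplit hAB hU).rot'

end Part

theorem erase_union_insert {X Y : Finset M} {g : M} (hg : g ∈ X) :
    X.erase g ∪ insert g Y = X ∪ Y := by
  ext x
  by_cases hx : x = g
  · subst hx
    simp [hg]
  · simp [hx]

theorem insert_union_erase {X Y : Finset M} {g : M} (hg : g ∈ Y) :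
    insert g X ∪ Y.erase g = X ∪ Y := by
  rw [union_comm, erase_union_insert hg, union_comm]

/-- A fair partition: the three bundles can be assigned to the agents without objections. -/
def Fair (a b c : Finset M → ℕ) : Prop :=
  ∃ X Y Z, Part X Y Z ∧ NE a X Y ∧ NE a X Z ∧ NE b Y X ∧ NE b Y Z ∧ NE c Z X ∧ NE c Z Y

theorem Fair.swap {a b c : Finset M → ℕ} (h : Fair a b c) : Fair a c b := by
  obtain ⟨X, Y, Z, hP, h1, h2, h3, h4, h5, h6⟩ := h
  exact ⟨X, Z, Y, hP.s23, h2, h1, h5, h6, h3, h4⟩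

/-- The level condition defining the potential `p`. -/
def Lev (a b c : Finset M → ℕ) (t : ℕ) : Prop :=
  ∃ S T D, Part S T D ∧ NE a S T ∧ NE a S D ∧ NE a T S ∧ NE a T D ∧ t ≤ a S ∧ t ≤ a T ∧
    ((NE b D S ∧ NE b D T) ∨ (NE c D S ∧ NE c D T))

theorem Lev.swap {a b c : Finset M → ℕ} {t : ℕ} (h : Lev a b c t) : Lev a c b t := by
  obtain ⟨S, T, D, h0, h1, h2, h3, h4, h5, h6, h7⟩ := h
  exact ⟨S, T, D, h0, h1, h2, h3, h4, h5, h6, h7.symm⟩

/-! ### Leximin partitions -/

theorem exists_balanced {v : Finset M → ℕ} (hv : BM v) {t : ℕ} {X Y Z : Finset M}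
    (hP : Part X Y Z) (hX : t ≤ v X) (hY : t ≤ v Y) (hZ : t ≤ v Z) :
    ∃ X Y Z, Part X Y Z ∧ t ≤ v X ∧ t ≤ v Y ∧ t ≤ v Z ∧ NE v X Y ∧ NE v X Z ∧ NE v Y X ∧
      NE v Y Z ∧ NE v Z X ∧ NE v Z Y := by
  set N := Fintype.card M with hN
  have hle : ∀ S, v S ≤ N := fun S => (hv.le_card S).trans (card_le_univ S)
  let C : Finset M → Finset M → Finset M → ℕ := fun X Y Z =>
    2 ^ (N - v X) + 2 ^ (N - v Y) + 2 ^ (N - v Z)
  obtain ⟨n, hn⟩ : ∃ n, C X Y Z = n := ⟨_, rfl⟩
  induction n using Nat.strong_induction_on generalizing X Y Z with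
  | _ n ih =>
    have key : ∀ X Y Z : Finset M, Part X Y Z → t ≤ v X → t ≤ v Y → t ≤ v Z → C X Y Z = n →
        ¬ NE v X Y → ∃ X Y Z, Part X Y Z ∧ t ≤ v X ∧ t ≤ v Y ∧ t ≤ v Z ∧ NE v X Y ∧
          NE v X Z ∧ NE v Y X ∧ NE v Y Z ∧ NE v Z X ∧ NE v Z Y := by
      intro X Y Z hP hX hY hZ hn hne
      unfold NE at hne
      rw [not_not] at hne
      obtain ⟨A, B, hAB, hU, hA, hB⟩ := hne
      refine ih (C A B Z) ?_ (hP.resplit hAB hU) (by omega) (by omega) hZ rfl
      rw [← hn]
      have h1 : 2 ^ (N - v A) ≤ 2 ^ (N - v X - 1) := Nat.pow_le_pow_right (by norm_num) (by omega)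
      have h2 : 2 ^ (N - v B) ≤ 2 ^ (N - v X - 1) := Nat.pow_le_pow_right (by norm_num) (by omega)
      have h3 : 2 ^ (N - v X) = 2 * 2 ^ (N - v X - 1) := by
        rw [← pow_succ']
        congr 1
        have := hle A
        omega
      have h4 : 0 < 2 ^ (N - v Y) := by positivity
      simp only [C]
      omega
    by_cases h1 : NE v X Y
    swap
    · exact key X Y Z hP hX hY hZ hn h1
    by_cases h2 : NE v X Z
    swap
    · exact key X Z Y hP.s23 hX hZ hY (by simp only [C] at hn ⊢; omega) h2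
    by_cases h3 : NE v Y X
    swap
    · exact key Y X Z hP.s12 hY hX hZ (by simp only [C] at hn ⊢; omega) h3
    by_cases h4 : NE v Y Z
    swap
    · exact key Y Z X hP.rot hY hZ hX (by simp only [C] at hn ⊢; omega) h4
    by_cases h5 : NE v Z X
    swap
    · exact key Z X Y hP.rot' hZ hX hY (by simp only [C] at hn ⊢; omega) h5
    by_cases h6 : NE v Z Y
    swap
    · exact key Z Y X hP.s13 hZ hY hX (by simp only [C] at hn ⊢; omega) h6
    exact ⟨X, Y, Z, hP, hX, hY, hZ, h1, h2, h3, h4, h5, h6⟩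

/-- `D` is a best bundle. -/
def Bst (v : Finset M → ℕ) (D S T : Finset M) : Prop := v S ≤ v D ∧ v T ≤ v D

theorem bst_cases (v : Finset M → ℕ) (X Y Z : Finset M) :
    Bst v X Y Z ∨ Bst v Y X Z ∨ Bst v Z X Y := by
  unfold Bst
  omega

theorem lev_of_three {a b c : Finset M → ℕ} (ha : BM a) (hb : BM b) {t : ℕ} {X Y Z : Finset M}
    (hP : Part X Y Z) (hX : t ≤ a X) (hY : t ≤ a Y) (hZ : t ≤ a Z) : Lev a b c t := by
  obtain ⟨X, Y, Z, hP, hX, hY, hZ, h1, h2, h3, h4, h5, h6⟩ := exists_balanced ha hP hX hY hZ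
  rcases bst_cases b X Y Z with h | h | h
  · exact ⟨Y, Z, X, hP.rot, h4, h3, h6, h5, hY, hZ,
      Or.inl ⟨hb.ne_of_le hP.xy h.1, hb.ne_of_le hP.xz h.2⟩⟩
  · exact ⟨X, Z, Y, hP.s23, h2, h1, h5, h6, hX, hZ,
      Or.inl ⟨hb.ne_of_le hP.xy.symm h.1, hb.ne_of_le hP.yz h.2⟩⟩
  · exact ⟨X, Y, Z, hP, h1, h2, h3, h4, hX, hY,
      Or.inl ⟨hb.ne_of_le hP.xz.symm h.1, hb.ne_of_le hP.yz.symm h.2⟩⟩

end Pool.Agent.Helper81.PMMS
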