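import Pool.Agent.Helper81.PMMS.Three

/-!
# Connectivity of balanced splits
-/

namespace Pool.Agent.Helper81.PMMS

open Finset

set_option linter.unusedSectionVars false

variable {M : Type} [DecidableEq M] [Fintype M]

/-- The situation in which `V` does not split but `V` with one more item `g` does. -/
structure Near (a : Finset M → ℕ) (p : ℕ) (V D : Finset M) (g : M) : Prop where
  disj : Disjoint V D
  cov : ∀ x, x ∈ V ∨ x ∈ D
  hV : ¬ Spl a (p + 1) V
  gD : g ∈ D
  hg : Spl a (p + 1) (insert g V)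
  hD : a D ≤ p

/-- Both other agents strictly prefer `D` to the two parts of the split of `V` given by `Y`. -/
def Q (b c : Finset M → ℕ) (V D Y : Finset M) : Prop :=
  b Y < b D ∧ b (V \ Y) < b D ∧ c Y < c D ∧ c (V \ Y) < c D

namespace Near

variable {a b c : Finset M → ℕ} {p : ℕ} {V D : Finset M} {g : M}

theorem compl_ge (N : Near a p V D g) (ha : BM a) {Y : Finset M} (hY : Y ⊆ V) (hlt : a Y ≤ p) :
    p ≤ a (V \ Y) := by
  have hgV : g ∉ V := fun h => disjoint_left.1 N.disj h N.gD
  have hd : Disjoint Y (insert g (V \ Y)) := by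
    rw [disjoint_insert_right]
    exact ⟨fun h => hgV (hY h), disjoint_sdiff⟩
  have hU : Y ∪ insert g (V \ Y) = insert g V := by
    rw [union_insert, union_sdiff_of_subset hY]
  have h1 := ha.insert_le (V \ Y) g
  rcases ha.spl_cases N.hg hd hU with h | h <;> omega

theorem part (N : Near a p V D g) {Y : Finset M} (hY : Y ⊆ V) : Part Y (V \ Y) D := by
  refine ⟨disjoint_sdiff, N.disj.mono_left hY, N.disj.mono_left sdiff_subset, fun x => ?_⟩
  rcases N.cov x with h | h
  · by_cases hx : x ∈ Y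
    · exact Or.inl hx
    · exact Or.inr (Or.inl (mem_sdiff.2 ⟨h, hx⟩))
  · exact Or.inr (Or.inr h)

theorem ok (N : Near a p V D g) (ha : BM a) {Y : Finset M} (hY : Y ⊆ V) (h1 : a Y ≤ p)
    (h2 : p ≤ a Y) : OK a p Y (V \ Y) D := by
  have hP := N.part hY
  have hV : ¬ Spl a (p + 1) (Y ∪ (V \ Y)) := by
    rw [union_sdiff_of_subset hY]
    exact N.hV
  have hD := N.hD
  refine ⟨h2, N.compl_ge ha hY h1, Or.inr ⟨hV, ?_⟩, ?_⟩
  · intro hs
    rcases ha.spl_cases hs hP.xz rfl with h | h <;> omega
  · by_cases h3 : p + 1 ≤ a (V \ Y)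
    · exact Or.inl h3
    · right
      refine ⟨hV, ?_⟩
      intro hs
      rcases ha.spl_cases hs hP.yz rfl with h | h <;> omega

theorem step (N : Near a p V D g) (h : Ctx a b c p) {Y Y' : Finset M} (hQ : Q b c V D Y)
    (hY' : Y' ⊆ V) (h1 : a Y' ≤ p) (h2 : p ≤ a Y') (hx : ∃ x, Y' ⊆ insert x Y)
    (hz : ∃ z, Y ⊆ insert z Y') : Q b c V D Y' := by
  obtain ⟨x, hx⟩ := hx
  obtain ⟨z, hz⟩ := hz
  have hz' : V \ Y' ⊆ insert z (V \ Y) := by
    intro w hw
    rw [mem_sdiff] at hw
    rw [mem_insert, mem_sdiff]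
    by_cases hwz : w = z
    · exact Or.inl hwz
    · right
      refine ⟨hw.1, fun hwY => ?_⟩
      rcases mem_insert.1 (hz hwY) with h' | h'
      · exact hwz h'
      · exact hw.2 h'
  have e1 := (h.hb.mono hx).trans (h.hb.insert_le Y x)
  have e2 := (h.hb.mono hz').trans (h.hb.insert_le (V \ Y) z)
  obtain ⟨q1, q2, q3, q4⟩ := hQ
  have hR := h.typeI (N.part hY') (N.ok h.ha hY' h1 h2) ⟨by omega, by omega⟩
  exact ⟨hR.bS, hR.bT, hR.cS, hR.cT⟩

theorem climb (N : Near a p V D g) (h : Ctx a b c p) {Y : Finset M} (hQ : Q b c V D Y)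
    (hY : Y ⊆ V) (h1 : a Y ≤ p) (h2 : p ≤ a Y) :
    ∃ W, Y ⊆ W ∧ W ⊆ V ∧ a W ≤ p ∧ p ≤ a W ∧ Q b c V D W ∧ ∀ x ∈ V, x ∉ W → p < a (insert x W) := by
  obtain ⟨n, hn⟩ : ∃ n, (V \ Y).card = n := ⟨_, rfl⟩
  induction n using Nat.strong_induction_on generalizing Y with
  | _ n ih =>
    by_cases hmax : ∀ x ∈ V, x ∉ Y → p < a (insert x Y)
    · exact ⟨Y, Subset.refl _, hY, h1, h2, hQ, hmax⟩
    · push Not at hmax
      obtain ⟨x, hxV, hxY, hx⟩ := hmax
      have hsub : insert x Y ⊆ V := insert_subset hxV hY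
      have hge := h.ha.le_insert Y x
      have hQ' := N.step h hQ hsub hx (by omega) ⟨x, Subset.refl _⟩
        ⟨x, (subset_insert _ _).trans (subset_insert _ _)⟩
      have hlt : (V \ insert x Y).card < n := by
        rw [← hn]
        refine card_lt_card ⟨sdiff_subset_sdiff (Subset.refl _) (subset_insert _ _), fun hc => ?_⟩
        have := hc (mem_sdiff.2 ⟨hxV, hxY⟩)
        rw [mem_sdiff] at this
        exact this.2 (mem_insert_self _ _)
      obtain ⟨W, w1, w2⟩ := ih _ hlt hQ' hsub hx (by omega) rfl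
      exact ⟨W, (subset_insert _ _).trans w1, w2⟩

theorem descend (N : Near a p V D g) (h : Ctx a b c p) {W Y : Finset M} (hQ : Q b c V D W)
    (hW : W ⊆ V) (h1 : a W ≤ p) (hYW : Y ⊆ W) (h2 : p ≤ a Y) : Q b c V D Y := by
  obtain ⟨n, hn⟩ : ∃ n, (W \ Y).card = n := ⟨_, rfl⟩
  induction n using Nat.strong_induction_on generalizing W with
  | _ n ih =>
    by_cases hem : W \ Y = ∅
    · have : W = Y := Subset.antisymm (sdiff_eq_empty_iff_subset.1 hem) hYW
      rwa [this] at hQ
    · obtain ⟨x, hx⟩ := nonempty_iff_ne_empty.2 hem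
      rw [mem_sdiff] at hx
      have hYW' : Y ⊆ W.erase x := fun y hy =>
        mem_erase.2 ⟨fun hyx => hx.2 (hyx ▸ hy), hYW hy⟩
      have hle := h.ha.erase_le W x
      have hge := h.ha.mono hYW'
      have hQ' := N.step h hQ ((erase_subset x W).trans hW) (by omega) (by omega)
        ⟨x, (erase_subset _ _).trans (subset_insert _ _)⟩ ⟨x, by rw [insert_erase hx.1]⟩
      refine ih _ ?_ hQ' ((erase_subset x W).trans hW) (by omega) hYW' rfl
      rw [← hn]
      refine card_lt_card ⟨sdiff_subset_sdiff (erase_subset _ _) (Subset.refl _), fun hc => ?_⟩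
      have := hc (mem_sdiff.2 hx)
      rw [mem_sdiff] at this
      exact (notMem_erase _ _) this.1

/-- Pass from a maximal set `W` towards another one `W'`. -/
theorem cross (N : Near a p V D g) (h : Ctx a b c p) {W W' U : Finset M} {x : M}
    (hW : W ⊆ V) (haW : a W ≤ p) (hW' : W' ⊆ V) (haW' : a W' ≤ p) (hx : x ∈ W')
    (hQ : Q b c V D U) (hUW : U ⊆ W) (hint : W ∩ W' ⊆ U) (hxU : p < a (insert x U)) :
    ∃ Y, Y ⊆ V ∧ a Y ≤ p ∧ p ≤ a Y ∧ Q b c V D Y ∧ W ∩ W' ⊆ Y ∧ x ∈ Y := by
  obtain ⟨n, hn⟩ : ∃ n, (U \ W').card = n := ⟨_, rfl⟩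
  induction n using Nat.strong_induction_on generalizing U with
  | _ n ih =>
    by_cases hem : U \ W' = ∅
    · have hUW' : insert x U ⊆ W' := insert_subset hx (sdiff_eq_empty_iff_subset.1 hem)
      have := h.ha.mono hUW'
      omega
    · obtain ⟨z, hz⟩ := nonempty_iff_ne_empty.2 hem
      rw [mem_sdiff] at hz
      have hxz : x ≠ z := fun hxz => hz.2 (hxz ▸ hx)
      have hint' : W ∩ W' ⊆ U.erase z := fun y hy =>
        mem_erase.2 ⟨fun hyz => hz.2 (hyz ▸ (mem_inter.1 hy).2), hint hy⟩
      by_cases hcase : p < a (insert x (U.erase z))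
      · have h1 := h.ha.insert_le (U.erase z) x
        have h2 := h.ha.mono ((erase_subset z U).trans hUW)
        have hQ' := N.step h hQ ((erase_subset z U).trans (hUW.trans hW)) (by omega) (by omega)
          ⟨z, (erase_subset _ _).trans (subset_insert _ _)⟩ ⟨z, by rw [insert_erase hz.1]⟩
        refine ih _ ?_ hQ' ((erase_subset z U).trans hUW) hint' hcase rfl
        rw [← hn]
        refine card_lt_card ⟨sdiff_subset_sdiff (erase_subset _ _) (Subset.refl _), fun hc => ?_⟩
        have := hc (mem_sdiff.2 hz)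
        rw [mem_sdiff] at this
        exact (notMem_erase _ _) this.1
      · have hins : insert x U = insert z (insert x (U.erase z)) := by
          rw [Finset.insert_comm, insert_erase hz.1]
        have h1 := h.ha.insert_le (insert x (U.erase z)) z
        rw [← hins] at h1
        have hsub : insert x (U.erase z) ⊆ V :=
          insert_subset (hW' hx) ((erase_subset z U).trans (hUW.trans hW))
        refine ⟨insert x (U.erase z), hsub, by omega, by omega, ?_,
          hint'.trans (subset_insert _ _), mem_insert_self _ _⟩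
        refine N.step h hQ hsub (by omega) (by omega) ⟨x, ?_⟩ ⟨z, ?_⟩
        · exact insert_subset_insert _ (erase_subset _ _)
        · rw [← hins]
          exact subset_insert _ _

/-- Any two maximal sets of level at most `p` are connected. -/
theorem connect (N : Near a p V D g) (h : Ctx a b c p) {W W' : Finset M}
    (hW : W ⊆ V) (haW : a W ≤ p) (hpW : p ≤ a W) (hQ : Q b c V D W)
    (hmax : ∀ x ∈ V, x ∉ W → p < a (insert x W))
    (hW' : W' ⊆ V) (haW' : a W' ≤ p)
    (hmax' : ∀ x ∈ V, x ∉ W' → p < a (insert x W')) : Q b c V D W' := by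
  obtain ⟨n, hn⟩ : ∃ n, (W' \ W).card = n := ⟨_, rfl⟩
  induction n using Nat.strong_induction_on generalizing W with
  | _ n ih =>
    by_cases hem : W' \ W = ∅
    · have hsub : W' ⊆ W := sdiff_eq_empty_iff_subset.1 hem
      have : W' = W := by
        refine Subset.antisymm hsub fun x hx => ?_
        by_contra hx'
        have h1 := hmax' x (hW hx) hx'
        have h2 := h.ha.mono (insert_subset hx hsub)
        omega
      rwa [this]
    · obtain ⟨x, hx⟩ := nonempty_iff_ne_empty.2 hem
      rw [mem_sdiff] at hx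
      obtain ⟨Y, y1, y2, y3, y4, y5, y6⟩ := N.cross h hW haW hW' haW' hx.1 hQ (Subset.refl _)
        inter_subset_left (hmax x (hW' hx.1) hx.2)
      obtain ⟨W2, w1, w2, w3, w4, w5, w6⟩ := N.climb h y4 y1 y2 y3
      refine ih _ ?_ w2 w3 w4 w5 w6 rfl
      rw [← hn]
      refine card_lt_card ⟨fun y hy => ?_, fun hc => ?_⟩
      · rw [mem_sdiff] at hy ⊢
        refine ⟨hy.1, fun hyW => hy.2 (w1 (y5 (mem_inter.2 ⟨hyW, hy.1⟩)))⟩
      · have := hc (mem_sdiff.2 hx)
        rw [mem_sdiff] at this
        exact this.2 (w1 y6)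

theorem all (N : Near a p V D g) (h : Ctx a b c p) {Y Y' : Finset M} (hQ : Q b c V D Y)
    (hY : Y ⊆ V) (h1 : a Y ≤ p) (h2 : p ≤ a Y) (hY' : Y' ⊆ V) (h1' : a Y' ≤ p)
    (h2' : p ≤ a Y') : Q b c V D Y' := by
  obtain ⟨W, w1, w2, w3, w4, w5, w6⟩ := N.climb h hQ hY h1 h2
  obtain ⟨W', y1, y2, y3, y4⟩ : ∃ W', Y' ⊆ W' ∧ W' ⊆ V ∧ a W' ≤ p ∧
      ∀ x ∈ V, x ∉ W' → p < a (insert x W') := by
    clear h2'
    obtain ⟨n, hn⟩ : ∃ n, (V \ Y').card = n := ⟨_, rfl⟩
    induction n using Nat.strong_induction_on generalizing Y' with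
    | _ n ih =>
      by_cases hmax : ∀ x ∈ V, x ∉ Y' → p < a (insert x Y')
      · exact ⟨Y', Subset.refl _, hY', h1', hmax⟩
      · push Not at hmax
        obtain ⟨x, hxV, hxY, hx⟩ := hmax
        have hlt : (V \ insert x Y').card < n := by
          rw [← hn]
          refine card_lt_card ⟨sdiff_subset_sdiff (Subset.refl _) (subset_insert _ _),
            fun hc => ?_⟩
          have := hc (mem_sdiff.2 ⟨hxV, hxY⟩)
          rw [mem_sdiff] at this
          exact this.2 (mem_insert_self _ _)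
        obtain ⟨W, w1, w2⟩ := ih _ hlt (insert_subset hxV hY') hx rfl
        exact ⟨W, (subset_insert _ _).trans w1, w2⟩
  exact N.descend h (N.connect h w2 w3 w4 w5 w6 y2 y3 y4) y2 y3 y1 h2'

end Near

namespace Ctx

variable {a b c : Finset M → ℕ} {p : ℕ} {S T D : Finset M}

theorem key_aux (h : Ctx a b c p) (hR : R a b c p S T D) (hV : ¬ Spl a (p + 1) (S ∪ T))
    {g : M} (hg : g ∈ D) (hs : Spl a (p + 1) (insert g (S ∪ T))) {A B : Finset M}
    (hAB : Disjoint A B) (hU : A ∪ B = insert g (S ∪ T)) (hA : p + 1 ≤ a A) (hB : p + 1 ≤ a B)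
    (hgA : g ∈ A) : False := by
  have hgV : g ∉ S ∪ T := by
    rw [mem_union]
    rintro (h' | h')
    · exact disjoint_left.1 hR.part.xz h' hg
    · exact disjoint_left.1 hR.part.yz h' hg
  have hgB : g ∉ B := fun h' => disjoint_left.1 hAB hgA h'
  have hd : Disjoint (A.erase g) B := hAB.mono_left (erase_subset _ _)
  have hU' : A.erase g ∪ B = S ∪ T := by
    have : (A ∪ B).erase g = (insert g (S ∪ T)).erase g := by rw [hU]
    rwa [erase_insert hgV, erase_union_distrib, erase_eq_of_notMem hgB] at this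
  have hP : Part (A.erase g) B D := hR.part.resplit hd hU'
  have hins : insert g (A.erase g) = A := insert_erase hgA
  have hA1 := h.ha.le_erase A g
  have hA2 : a (A.erase g) ≤ p := by
    by_contra hlt
    exact hV (Spl.mk' hd hU' (by omega) hB)
  have hSpAD : ¬ Spl a (p + 1) (A.erase g ∪ D) := fun hs' =>
    h.spl_three hs' (by
      rw [disjoint_union_left]
      exact ⟨hd, hP.yz.symm⟩) hB
  have hSpV : ¬ Spl a (p + 1) (A.erase g ∪ B) := by rwa [hU']
  have hok : OK a p (A.erase g) B D := ⟨by omega, by omega, Or.inr ⟨hSpV, hSpAD⟩, Or.inl hB⟩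
  by_cases hD : p + 1 ≤ a D
  · have t1 := h.T1 hP.rot hB hD
    have t2 := h.T1c hP.rot hB hD
    by_cases hbst : Bst b D (A.erase g) B ∨ Bst c D (A.erase g) B
    · exact h.final (h.typeI' hP hok hbst) hg (by rwa [hins]) hB
    · rw [not_or] at hbst
      obtain ⟨n1, n2⟩ := hbst
      have hb1 : b D < b B ∧ b (A.erase g) ≤ b B := by
        unfold Bst at t1 n1
        omega
      have hc1 : c D < c B ∧ c (A.erase g) ≤ c B := by
        unfold Bst at t2 n2
        omega
      have r1 := hR.bS
      have r2 := hR.bT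
      have r3 := hR.cS
      have r4 := hR.cT
      have hb2 : b (A.erase g) < b D := by
        by_contra hlt
        have : Spl b (b D) (S ∪ T) := Spl.mk' hd hU' (by omega) (by omega)
        rcases h.hb.spl_cases this hR.part.xy rfl with h' | h' <;> omega
      have hc2 : c (A.erase g) < c D := by
        by_contra hlt
        have : Spl c (c D) (S ∪ T) := Spl.mk' hd hU' (by omega) (by omega)
        rcases h.hc.spl_cases this hR.part.xy rfl with h' | h' <;> omega
      have a1 : NE a (A.erase g) B := by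
        intro hs'
        exact hSpV (hs'.anti (by omega))
      have a2 : NE a (A.erase g) D := by
        intro hs'
        exact hSpAD (hs'.anti (by omega))
      have nb : Spl b (b D + 1) (D ∪ B) := by
        by_contra hne
        exact h.nf ⟨A.erase g, D, B, hP.s23, a2, a1, h.hb.ne_of_le hP.xz.symm hb2.le, hne,
          h.hc.ne_of_le hP.xy.symm hc1.2, h.hc.ne_of_le hP.yz hc1.1.le⟩
      have nc : Spl c (c D + 1) (D ∪ B) := by
        by_contra hne
        exact h.nf ⟨A.erase g, B, D, hP, a1, a2, h.hb.ne_of_le hP.xy.symm hb1.2,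
          h.hb.ne_of_le hP.yz hb1.1.le, h.hc.ne_of_le hP.xz.symm hc2.le, hne⟩
      have hP' : Part A B (D.erase g) := by
        have := hP.move31 hg
        rwa [hins] at this
      have e1 : (D ∪ B).erase g = D.erase g ∪ B := by
        rw [erase_union_distrib, erase_eq_of_notMem hgB]
      have s1 := h.hb.spl_erase g nb
      have s2 := h.hc.spl_erase g nc
      rw [e1] at s1 s2
      have l1 := h.hb.le_erase A g
      have l2 := h.hc.le_erase A g
      exact h.factA hP'.s23 hA (s1.anti (by omega)) (s2.anti (by omega))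
  · have N : Near a p (S ∪ T) D g := by
      refine ⟨?_, ?_, hV, hg, hs, by omega⟩
      · rw [disjoint_union_left]
        exact ⟨hR.part.xz, hR.part.yz⟩
      · intro x
        rw [mem_union]
        rcases hR.part.cov x with h' | h' | h' <;> simp [h']
    have hS : ¬ (p + 1 ≤ a S ∧ p + 1 ≤ a T) := fun h' =>
      hV (Spl.mk' hR.part.xy rfl h'.1 h'.2)
    have hdT : (S ∪ T) \ S = T := by
      rw [union_sdiff_left, Finset.sdiff_eq_self_iff_disjoint]
      exact hR.part.xy.symm
    have hdS : (S ∪ T) \ T = S := by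
      rw [union_sdiff_right, Finset.sdiff_eq_self_iff_disjoint]
      exact hR.part.xy
    have hdB : (S ∪ T) \ A.erase g = B := by
      rw [← hU', union_sdiff_left, Finset.sdiff_eq_self_iff_disjoint]
      exact hd.symm
    have hQ : Q b c (S ∪ T) D (A.erase g) := by
      have hsubA : A.erase g ⊆ S ∪ T := hU' ▸ subset_union_left
      by_cases hS' : p + 1 ≤ a S
      · have hQT : Q b c (S ∪ T) D T := by
          unfold Q
          rw [hdS]
          exact ⟨hR.bT, hR.bS, hR.cT, hR.cS⟩
        exact N.all h hQT subset_union_right (by omega) hR.ok.2.1 hsubA hA2 (by omega)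
      · have hQS : Q b c (S ∪ T) D S := by
          unfold Q
          rw [hdT]
          exact ⟨hR.bS, hR.bT, hR.cS, hR.cT⟩
        exact N.all h hQS subset_union_left (by omega) hR.ok.1 hsubA hA2 (by omega)
    obtain ⟨q1, q2, q3, q4⟩ := hQ
    rw [hdB] at q2 q4
    exact h.final ⟨hP, hok, q1, q2, q3, q4⟩ hg (by rwa [hins]) hB

/-- Key lemma. -/
theorem key (h : Ctx a b c p) (hR : R a b c p S T D) (hV : ¬ Spl a (p + 1) (S ∪ T))
    {g : M} (hg : g ∈ D) (hs : Spl a (p + 1) (insert g (S ∪ T))) : False := by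
  obtain ⟨A, B, hAB, hU, hA, hB⟩ := id hs
  have hgm : g ∈ A ∪ B := by
    rw [hU]
    exact mem_insert_self _ _
  rcases mem_union.1 hgm with hgA | hgB
  · exact h.key_aux hR hV hg hs hAB hU hA hB hgA
  · exact h.key_aux hR hV hg hs hAB.symm (by rwa [union_comm]) hB hA hgB

/-- No bundle of level `p + 1` next to an insisted bundle. -/
theorem L1 (h : Ctx a b c p) (hR : R a b c p S T D) : a T ≤ p := by
  obtain ⟨n, hn⟩ : ∃ n, D.card = n := ⟨_, rfl⟩
  induction n using Nat.strong_induction_on generalizing S T D with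
  | _ n ih =>
    by_contra hT
    have hbS := hR.bS
    have hbT := hR.bT
    have hcS := hR.cS
    have hcT := hR.cT
    have hS : a S ≤ p := by
      by_contra hS
      exact h.T1 hR.part (by omega) (by omega) ⟨hbS.le, hbT.le⟩
    obtain ⟨o1, o2, o3, o4⟩ := id hR.ok
    have hV : ¬ Spl a (p + 1) (S ∪ T) ∧ ¬ Spl a (p + 1) (S ∪ D) := by
      rcases o3 with o3 | o3
      · omega
      · exact o3
    obtain ⟨g, hg⟩ := h.hb.nonempty (by omega : 1 ≤ b D)
    by_cases hs : Spl a (p + 1) (insert g (S ∪ T))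
    · exact h.key hR hV.1 hg hs
    · have hP : Part (insert g S) T (D.erase g) := hR.part.move31 hg
      have hle := h.ha.le_insert S g
      have hok : OK a p (insert g S) T (D.erase g) := by
        refine ⟨by omega, by omega, ?_, Or.inl (by omega)⟩
        right
        rw [insert_union, insert_union_erase hg]
        exact ⟨hs, hV.2⟩
      have b1 := h.hb.le_erase D g
      have c1 := h.hc.le_erase D g
      by_cases hbst : Bst b (D.erase g) (insert g S) T ∨ Bst c (D.erase g) (insert g S) T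
      · exact hT (ih _ (hn ▸ card_erase_lt_of_mem hg) (h.typeI' hP hok hbst) rfl)
      · rw [not_or] at hbst
        obtain ⟨n1, n2⟩ := hbst
        unfold Bst at n1 n2
        exact h.factA hP.s12 (by omega) (Spl.mk' hP.xz rfl (by omega) (by omega))
          (Spl.mk' hP.xz rfl (by omega) (by omega))

theorem L1' (h : Ctx a b c p) (hR : R a b c p S T D) : a S ≤ p := h.L1 hR.symm

theorem L3_aux (h : Ctx a b c p) (hP : Part S T D) (h1 : p + 1 ≤ a S) (h2 : p + 1 ≤ a T)
    (h3 : p ≤ a D) (hb : Bst b S T D) : False := by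
  have hok : OK a p T D S := by
    refine ⟨by omega, h3, Or.inl h2, Or.inr ⟨?_, ?_⟩⟩
    · intro hs
      exact h.spl_three hs (by
        rw [disjoint_union_left]
        exact ⟨hP.xy.symm, hP.xz.symm⟩) h1
    · intro hs
      exact h.spl_three hs (by
        rw [disjoint_union_left]
        exact ⟨hP.yz.symm, hP.xy⟩) h2
  have := h.L1' (h.typeI hP.rot hok hb)
  omega

/-- A splittable set has a complement of level less than `p`. -/
theorem L3 (h : Ctx a b c p) {U : Finset M} (hs : Spl a (p + 1) U) (hUD : Disjoint U D) :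
    a D < p := by
  by_contra hD
  obtain ⟨A, B, hAB, rfl, hA, hB⟩ := hs
  have hP := part_compl hAB
  have hsub : D ⊆ (A ∪ B)ᶜ := fun x hx => by
    rw [mem_compl]
    exact fun h' => disjoint_left.1 hUD h' hx
  have hD' : p ≤ a (A ∪ B)ᶜ := (by omega : p ≤ a D).trans (h.ha.mono hsub)
  rcases bst_cases b A B (A ∪ B)ᶜ with h' | h' | h'
  · exact h.L3_aux hP hA hB hD' h'
  · exact h.L3_aux hP.s12 hB hA hD' h'
  · exact h.T1 hP hA hB h'

/-- If the holder of `S` objects to `T` then `D` is not a best bundle of the other agents. -/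
theorem L2 (h : Ctx a b c p) (hP : Part S T D) (h1 : p ≤ a S) (h2 : a S ≤ p)
    (hs : Spl a (p + 1) (S ∪ T)) : ¬ (Bst b D S T ∨ Bst c D S T) := by
  obtain ⟨n, hn⟩ : ∃ n, T.card = n := ⟨_, rfl⟩
  induction n using Nat.strong_induction_on generalizing T D with
  | _ n ih =>
    intro hbst
    have hT : p + 1 ≤ a T := by
      rcases h.ha.spl_cases hs hP.xy rfl with h' | h' <;> omega
    obtain ⟨x, hx⟩ := h.ha.nonempty (by omega : 1 ≤ a T)
    have hP' : Part S (T.erase x) (insert x D) := hP.move23 hx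
    have hbst' : Bst b (insert x D) S (T.erase x) ∨ Bst c (insert x D) S (T.erase x) := by
      have l1 := h.hb.le_insert D x
      have l2 := h.hc.le_insert D x
      have l3 := h.hb.erase_le T x
      have l4 := h.hc.erase_le T x
      unfold Bst at hbst ⊢
      omega
    by_cases hs' : Spl a (p + 1) (S ∪ T.erase x)
    · exact ih _ (hn ▸ card_erase_lt_of_mem hx) hP' hs' rfl hbst'
    · have l5 := h.ha.le_erase T x
      have hok : OK a p S (T.erase x) (insert x D) := by
        refine ⟨h1, by omega, Or.inr ⟨hs', ?_⟩, Or.inr ⟨hs', ?_⟩⟩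
        · intro hs''
          have := h.L3 hs'' (D := T.erase x) (by
            rw [disjoint_union_left]
            exact ⟨hP'.xy, hP'.yz.symm⟩)
          omega
        · intro hs''
          have := h.L3 hs'' (D := S) (by
            rw [disjoint_union_left]
            exact ⟨hP'.xy.symm, hP'.xz.symm⟩)
          omega
      have hR := h.typeI' hP' hok hbst'
      refine h.key hR hs' (mem_insert_self x D) ?_
      rw [← union_insert, insert_erase hx]
      exact hs

theorem end_aux (h : Ctx a b c p) {Y Z : Finset M} (hP : Part S Y Z) (hS1 : p ≤ a S)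
    (hS2 : a S ≤ p) {m : ℕ} (hm : ¬ Spl b (m + 1) (Y ∪ Z)) (hSm : b S ≤ m) (hZ : m ≤ b Z)
    (hYZ : b Z ≤ b Y) (hc : Spl c (c S) (Y ∪ Z)) : False := by
  have stage : ∀ Y' Z' : Finset M, Part S Y' Z' → Y' ∪ Z' = Y ∪ Z → m ≤ b Z' → b Z' ≤ b Y' →
      p + 1 ≤ a Y' ∧ a Z' < p ∧ b Z' < b Y' := by
    intro Y' Z' hP' hU h1 h2
    have hne := h.share hP' (by rwa [hU]) hSm (h1.trans h2) h1 (by rwa [hU])
    have n1 : NE a S Z' := by
      intro hs
      exact h.L2 hP'.s23 hS1 hS2 (hs.anti (by omega)) (Or.inl ⟨by omega, h2⟩)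
    have n2 : ¬ NE a S Y' := fun h' => hne ⟨h', n1⟩
    unfold NE at n2
    rw [not_not] at n2
    have n3 : Spl a (p + 1) (S ∪ Y') := n2.anti (by omega)
    refine ⟨?_, ?_, ?_⟩
    · rcases h.ha.spl_cases n3 hP'.xy rfl with h3 | h3 <;> omega
    · refine h.L3 n3 ?_
      rw [disjoint_union_left]
      exact ⟨hP'.xz, hP'.yz⟩
    · by_contra hlt
      exact h.L2 hP' hS1 hS2 n3 (Or.inl ⟨by omega, by omega⟩)
  obtain ⟨n, hn⟩ : ∃ n, Y.card = n := ⟨_, rfl⟩
  induction n using Nat.strong_induction_on generalizing Y Z with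
  | _ n ih =>
    obtain ⟨s1, s2, s3⟩ := stage Y Z hP rfl hZ hYZ
    obtain ⟨x, hx⟩ := h.ha.nonempty (by omega : 1 ≤ a Y)
    have hP' : Part S (Y.erase x) (insert x Z) := hP.move23 hx
    have hU : Y.erase x ∪ insert x Z = Y ∪ Z := erase_union_insert hx
    have h1 := h.hb.le_erase Y x
    have h2 := h.hb.le_insert Z x
    rcases le_total (b (insert x Z)) (b (Y.erase x)) with hle | hle
    · exact ih _ (hn ▸ card_erase_lt_of_mem hx) hP' (by rwa [hU]) (by omega) hle (by rwa [hU])
        (fun Y' Z' hP'' hU' => stage Y' Z' hP'' (hU'.trans hU)) rfl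
    · obtain ⟨s4, -, -⟩ := stage (insert x Z) (Y.erase x) hP'.s23 (by rw [union_comm, hU])
        (by omega) hle
      have h3 := h.ha.insert_le Z x
      omega

theorem no_R (h : Ctx a b c p) (hR : R a b c p S T D) : False := by
  obtain ⟨n, hn⟩ : ∃ n, D.card = n := ⟨_, rfl⟩
  induction n using Nat.strong_induction_on generalizing S T D with
  | _ n ih =>
    have hP := hR.part
    have hT := h.L1 hR
    have hS := h.L1' hR
    have hbS := hR.bS
    have hbT := hR.bT
    have hcS := hR.cS
    have hcT := hR.cT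
    obtain ⟨o1, o2, o3, o4⟩ := id hR.ok
    have hV : ¬ Spl a (p + 1) (S ∪ T) ∧ ¬ Spl a (p + 1) (S ∪ D) := by
      rcases o3 with o3 | o3
      · omega
      · exact o3
    have hTD : ¬ Spl a (p + 1) (T ∪ D) := by
      rcases o4 with o4 | o4
      · omega
      · exact o4.2
    obtain ⟨g, hg⟩ := h.hb.nonempty (by omega : 1 ≤ b D)
    have hs : ¬ Spl a (p + 1) (insert g (S ∪ T)) := fun hs => h.key hR hV.1 hg hs
    have b1 := h.hb.le_erase D g
    have c1 := h.hc.le_erase D g
    have hcard : (D.erase g).card < n := hn ▸ card_erase_lt_of_mem hg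
    -- critical on both sides
    have crit : ∀ S T : Finset M, Part S T D → p ≤ a S → p ≤ a T →
        ¬ Spl a (p + 1) (insert g (S ∪ T)) → ¬ Spl a (p + 1) (S ∪ D) →
        ¬ Spl a (p + 1) (T ∪ D) → b S < b D → c S < c D →
        b (D.erase g) < b (insert g T) ∧ c (D.erase g) < c (insert g T) := by
      intro S T hP o1 o2 hs hSD hTD hbS hcS
      have hP' : Part S (insert g T) (D.erase g) := hP.move32 hg
      have l1 := h.ha.le_insert T g
      have hok : OK a p S (insert g T) (D.erase g) := by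
        refine ⟨o1, by omega, Or.inr ⟨?_, ?_⟩, Or.inr ⟨?_, ?_⟩⟩
        · rwa [union_insert]
        · exact fun hs' => hSD (h.ha.spl_mono (union_subset_union_right (erase_subset _ _)) hs')
        · rwa [union_insert]
        · rwa [insert_union_erase hg]
      have hn' : ¬ (Bst b (D.erase g) S (insert g T) ∨ Bst c (D.erase g) S (insert g T)) :=
        fun hbst => ih _ hcard (h.typeI' hP' hok hbst) rfl
      unfold Bst at hn'
      omega
    obtain ⟨k1, k2⟩ := crit S T hP o1 o2 hs hV.2 hTD hbS hcS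
    obtain ⟨k3, k4⟩ := crit T S hP.s12 o2 o1 (by rwa [union_comm]) hTD hV.2 hbT hcT
    have i1 := h.hb.insert_le T g
    have i2 := h.hc.insert_le T g
    have i3 := h.hb.insert_le S g
    have i4 := h.hc.insert_le S g
    have a1 : NE a S T := fun hs' => hV.1 (hs'.anti (by omega))
    have a2 : NE a S D := fun hs' => hV.2 (hs'.anti (by omega))
    have hbs : Spl b (b D) (T ∪ D) := by
      by_contra hne
      refine h.nf ⟨S, T, D, hP, a1, a2, h.hb.ne_of_le hP.xy.symm (by omega), ?_,
        h.hc.ne_of_le hP.xz.symm hcS.le, h.hc.ne_of_le hP.yz.symm hcT.le⟩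
      intro hs'
      exact hne (hs'.anti (by omega))
    have hcs : Spl c (c S) (T ∪ D) := Spl.mk' hP.yz rfl (by omega) (by omega)
    obtain ⟨m, hm1, hm2, hm3⟩ := h.hb.exists_max hbs
    obtain ⟨A, B, hAB, hU, hA, hB⟩ := hm2
    have hP' : Part S A B := hP.resplit23 hAB hU
    rcases le_total (b B) (b A) with hle | hle
    · exact h.end_aux hP' o1 hS (by rwa [hU]) (by omega) hB hle (by rwa [hU])
    · exact h.end_aux hP'.s23 o1 hS (by rwa [union_comm, hU]) (by omega) hA hle
        (by rwa [union_comm, hU])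

end Ctx

/-- Three agents with binary-marginal MMS-feasible valuations have a fair partition. -/
theorem fair {a b c : Finset M → ℕ} (ha : BM a) (hb : BM b) (hc : BM c) : Fair a b c := by
  by_contra hnf
  have h0 : Lev a b c 0 := by
    have hP : Part (∅ : Finset M) ∅ univ :=
      ⟨disjoint_empty_left _, disjoint_empty_left _, disjoint_empty_left _, by simp⟩
    exact lev_of_three ha hb hP (Nat.zero_le _) (Nat.zero_le _) (Nat.zero_le _)
  obtain ⟨p, hp, hp'⟩ : ∃ p, Lev a b c p ∧ ¬ Lev a b c (p + 1) := by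
    by_contra hcon
    push Not at hcon
    have key : ∀ k, Lev a b c k := by
      intro k
      induction k with
      | zero => exact h0
      | succ k ih => exact hcon k ih
    obtain ⟨S, T, D, -, -, -, -, -, hS, -, -⟩ := key (Fintype.card M + 1)
    have h1 := ha.le_card S
    have h2 := card_le_univ S
    omega
  have h : Ctx a b c p := ⟨ha, hb, hc, hnf, hp'⟩
  obtain ⟨S, T, D, hP, e1, e2, e3, e4, hS, hT, hacc⟩ := hp
  have hok : OK a p S T D := by
    refine ⟨hS, hT, ?_, ?_⟩
    · by_cases hS' : p + 1 ≤ a S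
      · exact Or.inl hS'
      · have : a S = p := by omega
        unfold NE at e1 e2
        rw [this] at e1 e2
        exact Or.inr ⟨e1, e2⟩
    · by_cases hT' : p + 1 ≤ a T
      · exact Or.inl hT'
      · have : a T = p := by omega
        unfold NE at e3 e4
        rw [this] at e3 e4
        exact Or.inr ⟨by rwa [union_comm] at e3, e4⟩
  rcases hacc with ⟨x1, x2⟩ | ⟨x1, x2⟩
  · have hbst : Bst c D S T := by
      rcases bst_cases c D S T with h' | h' | h'
      · exact h'
      · exact absurd ⟨T, D, S, hP.rot, e4, e3, x2, x1, hc.ne_of_le hP.xy h'.2,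
          hc.ne_of_le hP.xz h'.1⟩ hnf
      · exact absurd ⟨S, D, T, hP.s23, e2, e1, x1, x2, hc.ne_of_le hP.xy.symm h'.2,
          hc.ne_of_le hP.yz h'.1⟩ hnf
    exact h.no_R (h.typeI' hP hok (Or.inr hbst))
  · have hbst : Bst b D S T := by
      rcases bst_cases b D S T with h' | h' | h'
      · exact h'
      · exact absurd ⟨T, S, D, hP.s12, e3, e4, hb.ne_of_le hP.xy h'.2,
          hb.ne_of_le hP.xz h'.1, x2, x1⟩ hnf
      · exact absurd ⟨S, T, D, hP, e1, e2, hb.ne_of_le hP.xy.symm h'.2,
          hb.ne_of_le hP.yz h'.1, x1, x2⟩ hnf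
    exact h.no_R (h.typeI' hP hok (Or.inl hbst))

end Pool.Agent.Helper81.PMMS
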