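import Pool.Agent.Helper81.PMMS.Defs
import Pool.Agent.Helper81.PMMS.Basic

/-!
# From real valued to natural valued valuations
-/

namespace Pool.Agent.Helper81.PMMS

open Finset

set_option linter.unusedSectionVars false

variable {M : Type} [DecidableEq M]

theorem exists_nat {v : Finset M → ℝ} (hb : BinaryMarginal v) (hm : MMSFeasible v) :
    ∃ w : Finset M → ℕ, BM w ∧ ∀ S, v S = (w S : ℝ) := by
  have h1 : ∀ S, ∃ k : ℕ, v S = (k : ℝ) := by
    intro S
    induction S using Finset.induction with
    | empty => exact ⟨0, by simpa using hb.1⟩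
    | insert a S _ ih =>
      obtain ⟨k, hk⟩ := ih
      rcases hb.2 S a with h | h
      · exact ⟨k, by linarith⟩
      · exact ⟨k + 1, by push_cast; linarith⟩
  choose w hw using h1
  refine ⟨w, ⟨?_, ?_, ?_, ?_⟩, hw⟩
  · have := hw ∅
    rw [hb.1] at this
    exact_mod_cast this.symm
  · intro S g
    have e1 := hw S
    have e2 := hw (insert g S)
    have : (w S : ℝ) ≤ w (insert g S) := by
      rcases hb.2 S g with h | h <;> linarith
    exact_mod_cast this
  · intro S g
    have e1 := hw S
    have e2 := hw (insert g S)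
    have : (w (insert g S) : ℝ) ≤ w S + 1 := by
      rcases hb.2 S g with h | h <;> linarith
    exact_mod_cast this
  · intro A B C D hAB hCD hU t hA hB
    have := hm A B C D hAB hCD hU
    rw [hw A, hw B, hw C, hw D] at this
    have h2 : min (w A) (w B) ≤ max (w C) (w D) := by exact_mod_cast this
    omega

theorem share_le {v : Finset M → ℝ} {w : Finset M → ℕ} (hw : ∀ S, v S = (w S : ℝ))
    {X Y : Finset M} (h : NE w X Y) : twoWayShare v (X ∪ Y) ≤ v X := by
  unfold twoWayShare
  rw [Finset.sup'_le_iff]
  intro A hA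
  rw [mem_powerset] at hA
  by_contra hlt
  push Not at hlt
  rw [lt_min_iff, hw, hw, hw] at hlt
  refine h ⟨A, (X ∪ Y) \ A, disjoint_sdiff, union_sdiff_of_subset hA, ?_, ?_⟩
  · exact_mod_cast hlt.1
  · exact_mod_cast hlt.2

end Pool.Agent.Helper81.PMMS
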