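import Mathlib

/-!
# Pairwise maximin share (PMMS) allocations: definitions
-/

namespace Pool.Agent.Helper81.PMMS

variable {M : Type} [DecidableEq M]

/-- `v` has value `0` on the empty set and every marginal `v (S ∪ {g}) - v S` is `0` or `1`. -/
def BinaryMarginal (v : Finset M → ℝ) : Prop :=
  v ∅ = 0 ∧ ∀ (S : Finset M) (g : M), v (insert g S) - v S = 0 ∨ v (insert g S) - v S = 1

/-- `v` is MMS-feasible: for any two partitions of one set into two parts, the better part of
one partition is worth at least the worse part of the other. -/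
def MMSFeasible (v : Finset M → ℝ) : Prop :=
  ∀ A₁ A₂ B₁ B₂ : Finset M, Disjoint A₁ A₂ → Disjoint B₁ B₂ → A₁ ∪ A₂ = B₁ ∪ B₂ →
    min (v A₁) (v A₂) ≤ max (v B₁) (v B₂)

/-- The two-way fair share `μ(S)`: the maximum, over all `A ⊆ S`, of the smaller of
`v A` and `v (S \ A)`. -/
noncomputable def twoWayShare (v : Finset M → ℝ) (S : Finset M) : ℝ :=
  S.powerset.sup' ⟨∅, Finset.empty_mem_powerset S⟩ fun A => min (v A) (v (S \ A))

/-- `X` is an allocation of all items: the bundles are pairwise disjoint and cover `M`. -/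
def IsAllocation {n : ℕ} (X : Fin n → Finset M) : Prop :=
  (∀ i j, i ≠ j → Disjoint (X i) (X j)) ∧ ∀ g, ∃ i, g ∈ X i

/-- `X` is a PMMS allocation: an allocation of all items in which every agent `i` values her
bundle at least at her two-way fair share of `X i ∪ X j`, for every other agent `j`. -/
def IsPMMS {n : ℕ} (v : Fin n → Finset M → ℝ) (X : Fin n → Finset M) : Prop :=
  IsAllocation X ∧ ∀ i j, i ≠ j → twoWayShare (v i) (X i ∪ X j) ≤ v i (X i)

end Pool.Agent.Helper81.PMMS
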