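import Pool.Agent.Helper81.PMMS.Basic

/-!
# Three agents: the core argument
-/

namespace Pool.Agent.Helper81.PMMS

open Finset

set_option linter.unusedSectionVars false

variable {M : Type} [DecidableEq M] [Fintype M]

/-- Running assumptions: no fair partition, and level `p + 1` is not attained. -/
structure Ctx (a b c : Finset M → ℕ) (p : ℕ) : Prop where
  ha : BM a
  hb : BM b
  hc : BM c
  nf : ¬ Fair a b c
  nl : ¬ Lev a b c (p + 1)

/-- The first agent is content with both `S` and `T` up to level `p + 1`. -/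
def OK (a : Finset M → ℕ) (p : ℕ) (S T D : Finset M) : Prop :=
  p ≤ a S ∧ p ≤ a T ∧
    (p + 1 ≤ a S ∨ (¬ Spl a (p + 1) (S ∪ T) ∧ ¬ Spl a (p + 1) (S ∪ D))) ∧
    (p + 1 ≤ a T ∨ (¬ Spl a (p + 1) (S ∪ T) ∧ ¬ Spl a (p + 1) (T ∪ D)))

theorem OK.symm {a : Finset M → ℕ} {p : ℕ} {S T D : Finset M} (h : OK a p S T D) :
    OK a p T S D := by
  obtain ⟨h1, h2, h3, h4⟩ := h
  refine ⟨h2, h1, ?_, ?_⟩
  · rwa [union_comm T S]
  · rwa [union_comm T S]

/-- The partitions in which both other agents insist on `D`. -/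
structure R (a b c : Finset M → ℕ) (p : ℕ) (S T D : Finset M) : Prop where
  part : Part S T D
  ok : OK a p S T D
  bS : b S < b D
  bT : b T < b D
  cS : c S < c D
  cT : c T < c D

theorem R.symm {a b c : Finset M → ℕ} {p : ℕ} {S T D : Finset M} (h : R a b c p S T D) :
    R a b c p T S D := ⟨h.part.s12, h.ok.symm, h.bT, h.bS, h.cT, h.cS⟩

theorem R.swap {a b c : Finset M → ℕ} {p : ℕ} {S T D : Finset M} (h : R a b c p S T D) :
    R a c b p S T D := ⟨h.part, h.ok, h.cS, h.cT, h.bS, h.bT⟩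

namespace Ctx

variable {a b c : Finset M → ℕ} {p : ℕ} {S T D : Finset M}

theorem swap (h : Ctx a b c p) : Ctx a c b p :=
  ⟨h.ha, h.hc, h.hb, fun h' => h.nf h'.swap, fun h' => h.nl h'.swap⟩

theorem three (h : Ctx a b c p) (hP : Part S T D) (h1 : p + 1 ≤ a S) (h2 : p + 1 ≤ a T)
    (h3 : p + 1 ≤ a D) : False :=
  h.nl (lev_of_three h.ha h.hb hP h1 h2 h3)

theorem part_compl {A B : Finset M} (hAB : Disjoint A B) : Part A B (A ∪ B)ᶜ := by
  refine ⟨hAB, ?_, ?_, ?_⟩
  · rw [disjoint_left]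
    intro x hx
    simp [hx]
  · rw [disjoint_left]
    intro x hx
    simp [hx]
  · intro x
    by_cases h1 : x ∈ A
    · simp [h1]
    · by_cases h2 : x ∈ B <;> simp [h1, h2]

theorem spl_three (h : Ctx a b c p) (hS : Spl a (p + 1) S) (hST : Disjoint S T)
    (h3 : p + 1 ≤ a T) : False := by
  obtain ⟨A, B, hAB, rfl, hA, hB⟩ := hS
  refine h.three (part_compl hAB) hA hB (h3.trans (h.ha.mono ?_))
  intro x hx
  rw [mem_compl]
  exact fun h' => disjoint_left.1 hST h' hx

/-- Two bundles of level `p + 1` force the third one not to be best for the second agent. -/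
theorem T1 (h : Ctx a b c p) (hP : Part S T D) (h1 : p + 1 ≤ a S) (h2 : p + 1 ≤ a T) :
    ¬ Bst b D S T := by
  obtain ⟨n, hn⟩ : ∃ n, S.card + T.card = n := ⟨_, rfl⟩
  induction n using Nat.strong_induction_on generalizing S T D with
  | _ n ih =>
    intro hb
    have key : ∀ S T D : Finset M, Part S T D → p + 1 ≤ a S → p + 1 ≤ a T →
        S.card + T.card = n → Bst b D S T → a T < a S → False := by
      intro S T D hP h1 h2 hn hb hlt
      obtain ⟨x, hx⟩ := h.ha.nonempty (by omega : 1 ≤ a S)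
      have h3 := h.ha.le_erase S x
      have h4 := card_erase_lt_of_mem hx
      refine ih _ (by omega) (hP.move13 hx) (by omega) h2 rfl ⟨?_, ?_⟩
      · exact (h.hb.erase_le _ _).trans (hb.1.trans (h.hb.le_insert _ _))
      · exact hb.2.trans (h.hb.le_insert _ _)
    rcases lt_trichotomy (a S) (a T) with hlt | heq | hlt
    · exact key T S D hP.s12 h2 h1 (by omega) ⟨hb.2, hb.1⟩ hlt
    · refine h.nl ⟨S, T, D, hP, h.ha.ne_of_le hP.xy (by omega), ?_,
        h.ha.ne_of_le hP.xy.symm (by omega), ?_, h1, h2,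
        Or.inl ⟨h.hb.ne_of_le hP.xz.symm hb.1, h.hb.ne_of_le hP.yz.symm hb.2⟩⟩
      · intro hs
        refine h.spl_three (hs.anti (by omega)) ?_ h2
        rw [disjoint_union_left]
        exact ⟨hP.xy, hP.yz.symm⟩
      · intro hs
        refine h.spl_three (hs.anti (by omega)) ?_ h1
        rw [disjoint_union_left]
        exact ⟨hP.xy.symm, hP.xz.symm⟩
    · exact key S T D hP h1 h2 hn hb hlt

theorem T1c (h : Ctx a b c p) (hP : Part S T D) (h1 : p + 1 ≤ a S) (h2 : p + 1 ≤ a T) :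
    ¬ Bst c D S T := h.swap.T1 hP h1 h2

end Ctx

theorem BM.exists_max {v : Finset M → ℕ} (hv : BM v) {t : ℕ} {S : Finset M} (hS : Spl v t S) :
    ∃ m, t ≤ m ∧ Spl v m S ∧ ¬ Spl v (m + 1) S := by
  by_contra hcon
  push Not at hcon
  have key : ∀ k, Spl v (t + k) S := by
    intro k
    induction k with
    | zero => exact hS
    | succ k ih => exact hcon (t + k) (by omega) ih
  obtain ⟨A, B, -, -, hA, -⟩ := key (S.card + Fintype.card M + 1)
  have h1 := hv.le_card A
  have h2 := card_le_univ A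
  omega

namespace Ctx

variable {a b c : Finset M → ℕ} {p : ℕ} {S T D : Finset M}

/-- If the first agent does not object to `S`, the two others can share the rest. -/
theorem share (h : Ctx a b c p) {Y Z : Finset M} (hP : Part S Y Z) {m : ℕ}
    (hm : ¬ Spl b (m + 1) (Y ∪ Z)) (hSm : b S ≤ m) (hY : m ≤ b Y) (hZ : m ≤ b Z)
    (hc : Spl c (c S) (Y ∪ Z)) : ¬ (NE a S Y ∧ NE a S Z) := by
  rintro ⟨h1, h2⟩
  have b1 : NE b Y Z := fun hs => hm (hs.anti (by omega))
  have b2 : NE b Z Y := fun hs => hm (by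
    rw [union_comm Y Z]
    exact hs.anti (by omega))
  have b3 : NE b Y S := h.hb.ne_of_le hP.xy.symm (by omega)
  have b4 : NE b Z S := h.hb.ne_of_le hP.xz.symm (by omega)
  have hcc := h.hc.spl_cases hc hP.yz rfl
  rcases le_total (c Z) (c Y) with hle | hle
  · refine h.nf ⟨S, Z, Y, hP.s23, h2, h1, b4, b2, h.hc.ne_of_le hP.xy.symm ?_,
      h.hc.ne_of_le hP.yz hle⟩
    omega
  · refine h.nf ⟨S, Y, Z, hP, h1, h2, b3, b1, h.hc.ne_of_le hP.xz.symm ?_,
      h.hc.ne_of_le hP.yz.symm hle⟩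
    omega

theorem factA_aux (h : Ctx a b c p) {Y Z : Finset M} (hP : Part S Y Z) (haS : a S = p + 1)
    {m : ℕ} (hm : ¬ Spl b (m + 1) (Y ∪ Z)) (hSm : b S ≤ m) (hZ : m ≤ b Z) (hYZ : b Z ≤ b Y)
    (hc : Spl c (c S) (Y ∪ Z)) : False := by
  have stage : ∀ Y' Z' : Finset M, Part S Y' Z' → Y' ∪ Z' = Y ∪ Z → m ≤ b Z' → b Z' ≤ b Y' →
      p + 2 ≤ a Y' ∧ b Z' < b Y' := by
    intro Y' Z' hP' hU h1 h2
    have hne := h.share hP' (by rwa [hU]) hSm (h1.trans h2) h1 (by rwa [hU])
    have n1 : NE a S Z' := by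
      intro hs
      rcases h.ha.spl_cases hs hP'.xz rfl with h3 | h3
      · omega
      · exact h.T1 hP'.s23 haS.ge (by omega) ⟨by omega, h2⟩
    have n2 : ¬ NE a S Y' := fun h' => hne ⟨h', n1⟩
    have n3 : p + 2 ≤ a Y' := by
      unfold NE at n2
      rw [not_not] at n2
      rcases h.ha.spl_cases n2 hP'.xy rfl with h3 | h3 <;> omega
    refine ⟨n3, ?_⟩
    by_contra hlt
    exact h.T1 hP' haS.ge (by omega) ⟨by omega, by omega⟩
  obtain ⟨n, hn⟩ : ∃ n, Y.card = n := ⟨_, rfl⟩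
  induction n using Nat.strong_induction_on generalizing Y Z with
  | _ n ih =>
    obtain ⟨s1, s2⟩ := stage Y Z hP rfl hZ hYZ
    obtain ⟨x, hx⟩ := h.ha.nonempty (by omega : 1 ≤ a Y)
    have hP' : Part S (Y.erase x) (insert x Z) := hP.move23 hx
    have hU : Y.erase x ∪ insert x Z = Y ∪ Z := erase_union_insert hx
    have h1 := h.hb.le_erase Y x
    have h2 := h.hb.le_insert Z x
    rcases le_total (b (insert x Z)) (b (Y.erase x)) with hle | hle
    · refine ih _ (hn ▸ card_erase_lt_of_mem hx) hP' (by rwa [hU]) (by omega) hle (by rwa [hU])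
        (fun Y' Z' hP'' hU' => stage Y' Z' hP'' (hU'.trans hU)) rfl
    · obtain ⟨s3, -⟩ := stage (insert x Z) (Y.erase x) hP'.s23 (by rw [union_comm, hU])
        (by omega) hle
      have h3 := h.ha.insert_le Z x
      exact h.three hP haS.ge (by omega) (by omega)

/-- A set of level `p + 1` must be large for one of the two other agents. -/
theorem factA (h : Ctx a b c p) {Y Z : Finset M} (hP : Part S Y Z) (haS : p + 1 ≤ a S)
    (hb : Spl b (b S) (Y ∪ Z)) (hc : Spl c (c S) (Y ∪ Z)) : False := by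
  obtain ⟨n, hn⟩ : ∃ n, S.card = n := ⟨_, rfl⟩
  induction n using Nat.strong_induction_on generalizing S Y Z with
  | _ n ih =>
    rcases eq_or_lt_of_le haS with heq | hlt
    · obtain ⟨m, hm1, hm2, hm3⟩ := h.hb.exists_max hb
      obtain ⟨A, B, hAB, hU, hA, hB⟩ := hm2
      have hP' : Part S A B := hP.resplit23 hAB hU
      rcases le_total (b B) (b A) with hle | hle
      · exact h.factA_aux hP' heq.symm (by rwa [hU]) hm1 hB hle (by rwa [hU])
      · exact h.factA_aux hP'.s23 heq.symm (by rwa [union_comm, hU]) hm1 hA hle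
          (by rwa [union_comm, hU])
    · obtain ⟨x, hx⟩ := h.ha.nonempty (by omega : 1 ≤ a S)
      have h1 := h.ha.le_erase S x
      have hsub : Y ∪ Z ⊆ insert x Y ∪ Z := union_subset_union_left (subset_insert _ _)
      exact ih _ (hn ▸ card_erase_lt_of_mem hx) (hP.move12 hx) (by omega)
        ((h.hb.spl_mono hsub hb).anti (h.hb.erase_le _ _))
        ((h.hc.spl_mono hsub hc).anti (h.hc.erase_le _ _)) rfl

theorem acc_or (h : Ctx a b c p) (hP : Part S T D) (hok : OK a p S T D)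
    (hn : ¬ (p + 1 ≤ a S ∧ p + 1 ≤ a T)) :
    (NE a S T ∧ NE a S D) ∨ (p + 1 ≤ a S ∧ p + 1 ≤ a D) := by
  obtain ⟨o1, o2, o3, o4⟩ := hok
  by_cases hS : p + 1 ≤ a S
  · have h1 : NE a S T := h.ha.ne_of_le hP.xy (by omega)
    by_cases h2 : NE a S D
    · exact Or.inl ⟨h1, h2⟩
    · right
      refine ⟨hS, ?_⟩
      unfold NE at h2
      rw [not_not] at h2
      rcases h.ha.spl_cases h2 hP.xz rfl with h3 | h3 <;> omega
  · left
    have haS : a S = p := by omega
    rcases o3 with o3 | o3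
    · exact absurd o3 hS
    · unfold NE
      rw [haS]
      exact o3

theorem typeI (h : Ctx a b c p) (hP : Part S T D) (hok : OK a p S T D) (hb : Bst b D S T) :
    R a b c p S T D := by
  have hn : ¬ (p + 1 ≤ a S ∧ p + 1 ≤ a T) := fun h' => h.T1 hP h'.1 h'.2 hb
  have A1 := h.acc_or hP hok hn
  have A2 := h.acc_or hP.s12 hok.symm (fun h' => hn ⟨h'.2, h'.1⟩)
  have b1 : NE b D S := h.hb.ne_of_le hP.xz.symm hb.1
  have b2 : NE b D T := h.hb.ne_of_le hP.yz.symm hb.2
  have c1 : ¬ Bst c S T D := by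
    intro hc
    rcases A2 with ⟨x1, x2⟩ | ⟨x1, x2⟩
    · exact h.nf ⟨T, D, S, hP.rot, x2, x1, b2, b1, h.hc.ne_of_le hP.xy hc.1,
        h.hc.ne_of_le hP.xz hc.2⟩
    · exact h.T1c hP.rot x1 x2 hc
  have c2 : ¬ Bst c T S D := by
    intro hc
    rcases A1 with ⟨x1, x2⟩ | ⟨x1, x2⟩
    · exact h.nf ⟨S, D, T, hP.s23, x2, x1, b1, b2, h.hc.ne_of_le hP.xy.symm hc.1,
        h.hc.ne_of_le hP.yz hc.2⟩
    · exact h.T1c hP.s23 x1 x2 hc
  have hc : c S < c D ∧ c T < c D := by
    unfold Bst at c1 c2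
    omega
  have d1 : NE c D S := h.hc.ne_of_le hP.xz.symm hc.1.le
  have d2 : NE c D T := h.hc.ne_of_le hP.yz.symm hc.2.le
  refine ⟨hP, hok, ?_, ?_, hc.1, hc.2⟩
  · by_contra hlt
    have hbS : Bst b S T D := by
      unfold Bst at hb ⊢
      omega
    rcases A2 with ⟨x1, x2⟩ | ⟨x1, x2⟩
    · exact h.nf ⟨T, S, D, hP.s12, x1, x2, h.hb.ne_of_le hP.xy hbS.1,
        h.hb.ne_of_le hP.xz hbS.2, d2, d1⟩
    · exact h.T1 hP.rot x1 x2 hbS
  · by_contra hlt
    have hbT : Bst b T S D := by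
      unfold Bst at hb ⊢
      omega
    rcases A1 with ⟨x1, x2⟩ | ⟨x1, x2⟩
    · exact h.nf ⟨S, T, D, hP, x1, x2, h.hb.ne_of_le hP.xy.symm hbT.1,
        h.hb.ne_of_le hP.yz hbT.2, d1, d2⟩
    · exact h.T1 hP.s23 x1 x2 hbT

theorem typeI' (h : Ctx a b c p) (hP : Part S T D) (hok : OK a p S T D)
    (hb : Bst b D S T ∨ Bst c D S T) : R a b c p S T D := by
  rcases hb with hb | hb
  · exact h.typeI hP hok hb
  · exact (h.swap.typeI hP hok hb).swap

/-- Final contradiction: after adding `g` both bundles have level `p + 1`. -/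
theorem final (h : Ctx a b c p) (hR : R a b c p S T D) {g : M} (hg : g ∈ D)
    (h1 : p + 1 ≤ a (insert g S)) (h2 : p + 1 ≤ a T) : False := by
  have hP : Part (insert g S) T (D.erase g) := hR.part.move31 hg
  have t1 := h.T1 hP h1 h2
  have t2 := h.T1c hP h1 h2
  have b1 := h.hb.le_erase D g
  have c1 := h.hc.le_erase D g
  have := hR.bT
  have := hR.cT
  unfold Bst at t1 t2
  refine h.factA hP.s12 h2 ?_ ?_
  · exact Spl.mk' hP.xz rfl (by omega) (by omega)
  · exact Spl.mk' hP.xz rfl (by omega) (by omega)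

end Ctx

end Pool.Agent.Helper81.PMMS
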